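import Pool.Agent.Lib.MP_776403_ag.SD2.Sol

/-!
# Stage 2 of THEOREM SD, (LAM) (v), (vi): the form in `ℤ[T]` modulo powers of `1 - T`
-/

set_option autoImplicit false

open PowerSeries

noncomputable section

namespace Pool.Agent.Lib.MP_776403_ag.SD2

namespace GlueAux

/-- `P(e^{-u})`. -/
def ev : Polynomial ℤ →+* ℂ⟦X⟧ :=
  Polynomial.eval₂RingHom (Int.castRingHom ℂ⟦X⟧) (ex 1)

theorem ev_X : ev Polynomial.X = ex 1 := by
  rw [ev, Polynomial.coe_eval₂RingHom, Polynomial.eval₂_X]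

theorem ex_pow (x : ℂ) (n : ℕ) : ex x ^ n = ex (n * x) := by
  induction n with
  | zero => rw [pow_zero, Nat.cast_zero, zero_mul, ex_zero]
  | succ n ih =>
    rw [pow_succ, ih, ex_mul]
    congr 1
    push_cast
    ring

theorem ev_X_pow (n : ℕ) : ev (Polynomial.X ^ n) = ex n := by
  rw [map_pow, ev_X, ex_pow, mul_one]

theorem ev_const (P : Polynomial ℤ) : constantCoeff (ev P) = ((P.eval 1 : ℤ) : ℂ) := by
  have h : (constantCoeff (R := ℂ)).comp ev =
      (Int.castRingHom ℂ).comp (Polynomial.evalRingHom 1) := by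
    apply Polynomial.ringHom_ext
    · intro a
      simp
    · simp only [RingHom.coe_comp, Function.comp_apply, ev_X, constantCoeff_ex]
      simp
  have h1 := congrArg (fun f => f P) h
  simpa using h1

theorem ev_expand (P : Polynomial ℤ) :
    ev (P.comp (Polynomial.X ^ 2)) = rescale (2 : ℂ) (ev P) := by
  have h : ev.comp (Polynomial.compRingHom (Polynomial.X ^ 2)) =
      (rescale (2 : ℂ)).comp ev := by
    apply Polynomial.ringHom_ext
    · intro a
      simp
    · simp only [RingHom.coe_comp, Function.comp_apply, ev_X, rescale_ex]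
      rw [Polynomial.coe_compRingHom_apply, Polynomial.X_comp, ev_X_pow]
      norm_num
  have h1 := congrArg (fun f => f P) h
  simpa using h1

/-- `1 - e^{-u}`. -/
def w : ℂ⟦X⟧ := 1 - ex 1

theorem w_eq : w = X * TdAux.ph := by rw [w, TdAux.X_mul_ph]

theorem ph_unit : IsUnit TdAux.ph := by
  rw [isUnit_iff_constantCoeff, ← coeff_zero_eq_constantCoeff_apply, TdAux.ph, coeff_mk]
  simp

theorem ev_one_sub : ev (1 - Polynomial.X) = w := by
  rw [map_sub, map_one, ev_X, w]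

theorem X_dvd_w (m : ℕ) : (X : ℂ⟦X⟧) ^ m ∣ w ^ m := by
  rw [w_eq, mul_pow]
  exact dvd_mul_right _ _

theorem dvd_w_mul_iff (a b : ℕ) (f : ℂ⟦X⟧) : X ^ (a + b) ∣ w ^ a * f ↔ X ^ b ∣ f := by
  rw [w_eq, mul_pow, mul_assoc, pow_add, mul_dvd_mul_iff_left (pow_ne_zero a X_ne_zero)]
  exact (ph_unit.pow a).dvd_mul_left

theorem dvd_iff (m : ℕ) (P : Polynomial ℤ) :
    (1 - Polynomial.X) ^ m ∣ P ↔ (X : ℂ⟦X⟧) ^ m ∣ ev P := by
  constructor
  · intro h
    have h1 := map_dvd ev h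
    rw [map_pow, ev_one_sub] at h1
    exact (X_dvd_w m).trans h1
  · intro h
    by_cases hP : P = 0
    · rw [hP]; exact dvd_zero _
    obtain ⟨q, hq, hq1⟩ := Polynomial.exists_eq_pow_rootMultiplicity_mul_and_not_dvd P hP 1
    set a := P.rootMultiplicity 1 with ha
    have h1 : (Polynomial.X - Polynomial.C (1 : ℤ)) = - (1 - Polynomial.X) := by
      rw [map_one]; ring
    rw [h1] at hq
    have h2 : P = (1 - Polynomial.X) ^ a * ((-1) ^ a * q) := by
      rw [hq]
      rw [neg_pow]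
      ring
    have h3 : IsUnit (ev ((-1) ^ a * q)) := by
      rw [isUnit_iff_constantCoeff, ev_const, isUnit_iff_ne_zero]
      intro h4
      have h5 : Polynomial.eval 1 ((-1) ^ a * q) = 0 := by exact_mod_cast h4
      rw [Polynomial.eval_mul, Polynomial.eval_pow, Polynomial.eval_neg,
        Polynomial.eval_one] at h5
      rcases mul_eq_zero.mp h5 with h6 | h6
      · exact absurd h6 (pow_ne_zero _ (by norm_num))
      · exact hq1 (Polynomial.dvd_iff_isRoot.mpr h6)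
    have h4 : m ≤ a := by
      by_contra h5
      rw [h2, map_mul, map_pow, ev_one_sub, h3.dvd_mul_right] at h
      have h6 := dvd_w_mul_iff a (m - a) 1
      rw [mul_one, Nat.add_sub_cancel' (not_le.mp h5).le] at h6
      have h7 := (X_pow_dvd_iff.mp (h6.mp h)) 0 (by omega)
      simp at h7
    rw [h2]
    exact (pow_dvd_pow _ h4).trans (dvd_mul_right _ _)

end GlueAux

open GlueAux

/-- The numerical condition on `X` from the Hilbert series: (v) and (vi) in `ℤ[T]`. -/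
theorem numX (c N : ℕ) (hN : 5 * c ≤ N) (d : Fin c → ℕ) (hd : ∀ i, 1 ≤ d i)
    (B : Polynomial ℤ) (hB : B = ∏ i, (1 - Polynomial.X ^ d i))
    (P p : ℕ → Polynomial ℤ) (hp : ∀ j, P j = (1 - Polynomial.X) ^ c * p j)
    (hrk : ∀ j, j ≤ c → (p j).eval 1 = c.choose j * (p 0).eval 1)
    (hP0 : P 0 = B) (hPc : ∀ j, c < j → P j = 0)
    (Q : ℕ → ℕ → Polynomial ℤ)
    (hQ : ∀ a b, (1 - Polynomial.X) ^ (N + 1) ∣ P a * P b - B * Q a b)
    (S : ℕ → Polynomial ℤ)
    (hS : ∀ j, j ≤ c → (1 - Polynomial.X) ^ (N + 1) ∣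
      ∑ q ∈ Finset.HasAntidiagonal.antidiagonal (2 * j), (-1) ^ q.2 * Q q.1 q.2 - (-1) ^ j * S j)
    (hsw : ∀ j, j ≤ c → (1 - Polynomial.X) ^ (N + 1) ∣
      B * (P j).comp (Polynomial.X ^ 2) - S j * B.comp (Polynomial.X ^ 2))
    (hkz : (1 - Polynomial.X) ^ (N + 1) ∣ B * B - ∑ j ∈ Finset.range (c + 1), (-1) ^ j * P j)
    (j : ℕ) : (1 - Polynomial.X) ^ (N + 1 - c) ∣
      P j - (∑ A ∈ Finset.powersetCard j Finset.univ, Polynomial.X ^ ∑ i ∈ A, d i) * B := by
  classical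
  -- `p 0 (1) ≠ 0`
  have hp0 : p 0 = ∏ i, ∑ k ∈ Finset.range (d i), (Polynomial.X : Polynomial ℤ) ^ k := by
    have h1 : (1 - Polynomial.X : Polynomial ℤ) ^ c * p 0 = (1 - Polynomial.X) ^ c *
        ∏ i, ∑ k ∈ Finset.range (d i), (Polynomial.X : Polynomial ℤ) ^ k := by
      rw [← hp, hP0, hB]
      have h2 : ∀ i, (1 - Polynomial.X ^ d i : Polynomial ℤ) = (1 - Polynomial.X) *
          ∑ k ∈ Finset.range (d i), (Polynomial.X : Polynomial ℤ) ^ k := by
        intro i
        rw [mul_neg_geom_sum]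
      rw [Finset.prod_congr rfl fun i _ => h2 i, Finset.prod_mul_distrib, Finset.prod_const,
        Finset.card_univ, Fintype.card_fin]
    refine mul_left_cancel₀ (pow_ne_zero c ?_) h1
    intro h3
    have h4 := congrArg (Polynomial.eval 0) h3
    simp at h4
  have hp1 : (p 0).eval 1 ≠ 0 := by
    rw [hp0, Polynomial.eval_prod]
    apply Finset.prod_ne_zero_iff.mpr
    intro i _
    rw [Polynomial.eval_finsetSum]
    simp only [Polynomial.eval_pow, Polynomial.eval_X, one_pow, Finset.sum_const,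
      Finset.card_range, nsmul_eq_mul, mul_one]
    have := hd i
    exact_mod_cast (by omega : d i ≠ 0)
  set be : ℂ⟦X⟧ := ev (p 0) with hbe
  have hbu : IsUnit be := by
    rw [isUnit_iff_constantCoeff, hbe, ev_const, isUnit_iff_ne_zero]
    exact_mod_cast hp1
  obtain ⟨ub, hub⟩ := hbu
  set bi : ℂ⟦X⟧ := (↑ub⁻¹ : ℂ⟦X⟧) with hbi
  have hbb : be * bi = 1 := by rw [← hub, hbi, Units.mul_inv]
  set r : ℕ → ℂ⟦X⟧ := fun j => ev (p j) * bi with hr
  have hbr : ∀ j, ev (p j) = be * r j := by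
    intro j
    rw [hr]
    simp only
    calc ev (p j) = ev (p j) * (be * bi) := by rw [hbb, mul_one]
      _ = be * (ev (p j) * bi) := by ring
  have hevP : ∀ j, ev (P j) = w ^ c * (be * r j) := by
    intro j
    rw [hp, map_mul, map_pow, ev_one_sub, hbr]
  have hevB : ev B = w ^ c * be := by
    rw [← hP0, hp, map_mul, map_pow, ev_one_sub, ← hbe]
  have hevB' : ev B = ∏ i, (1 - ex (d i)) := by
    rw [hB, map_prod]
    apply Finset.prod_congr rfl
    intro i _
    rw [map_sub, map_one, ev_X_pow]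
  have hwne : w ≠ 0 := by
    rw [w_eq]
    exact mul_ne_zero X_ne_zero ph_unit.ne_zero
  have hbne : be ≠ 0 := left_ne_zero_of_mul_eq_one hbb
  have hr0 : r 0 = 1 := by rw [hr]; exact hbb
  have hrc : ∀ j, c < j → r j = 0 := by
    intro j hj
    have h1 := hevP j
    rw [hPc j hj, map_zero] at h1
    have h2 := (mul_eq_zero.mp h1.symm).resolve_left (pow_ne_zero c hwne)
    exact (mul_eq_zero.mp h2).resolve_left hbne
  have hrconst : ∀ j, j ≤ c → constantCoeff (r j) = (c.choose j : ℂ) := by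
    intro j hj
    have h1 := congrArg (constantCoeff (R := ℂ)) (hbr j)
    rw [map_mul, ev_const, hrk j hj, hbe, ev_const] at h1
    push_cast at h1
    have h2 : (((p 0).eval 1 : ℤ) : ℂ) ≠ 0 := by exact_mod_cast hp1
    apply mul_left_cancel₀ h2
    rw [← h1]
    ring
  -- (Q1)
  have hub' : IsUnit be := ⟨ub, hub⟩
  have hQ1 : ∀ a b, (X : ℂ⟦X⟧) ^ (N + 1 - c) ∣ w ^ c * be * (r a * r b) - ev (Q a b) := by
    intro a b
    have h1 := (dvd_iff _ _).mp (hQ a b)
    rw [map_sub, map_mul, map_mul, hevP, hevP, hevB] at h1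
    have h2 : w ^ c * (be * r a) * (w ^ c * (be * r b)) - w ^ c * be * ev (Q a b) =
        w ^ c * (be * (w ^ c * be * (r a * r b) - ev (Q a b))) := by ring
    have h3 : N + 1 = c + (N + 1 - c) := by omega
    rw [h2, h3, dvd_w_mul_iff, hub'.dvd_mul_left] at h1
    exact h1
  have hT1 : ∀ j, j ≤ c → (X : ℂ⟦X⟧) ^ (N + 1 - c) ∣
      w ^ c * be * (∑ q ∈ Finset.HasAntidiagonal.antidiagonal (2 * j),
        (-1) ^ q.2 * (r q.1 * r q.2)) - (-1) ^ j * ev (S j) := by
    intro j hj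
    have h1 := (dvd_iff _ _).mp (hS j hj)
    rw [map_sub, map_sum, map_mul, map_pow, map_neg, map_one] at h1
    have h2 : w ^ c * be * (∑ q ∈ Finset.HasAntidiagonal.antidiagonal (2 * j),
        (-1) ^ q.2 * (r q.1 * r q.2)) - (-1) ^ j * ev (S j) =
        ∑ q ∈ Finset.HasAntidiagonal.antidiagonal (2 * j),
          (-1) ^ q.2 * (w ^ c * be * (r q.1 * r q.2) - ev (Q q.1 q.2)) +
        (∑ q ∈ Finset.HasAntidiagonal.antidiagonal (2 * j), ev ((-1) ^ q.2 * Q q.1 q.2) -
          (-1) ^ j * ev (S j)) := by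
      simp only [map_mul, map_pow, map_neg, map_one, mul_sub, Finset.sum_sub_distrib]
      rw [Finset.mul_sum]
      have h3 : ∀ q : ℕ × ℕ, w ^ c * be * ((-1) ^ q.2 * (r q.1 * r q.2)) =
          (-1) ^ q.2 * (w ^ c * be * (r q.1 * r q.2)) := by intro q; ring
      rw [Finset.sum_congr rfl fun q _ => h3 q]
      ring
    rw [h2]
    refine dvd_add (Finset.dvd_sum fun q _ => dvd_mul_of_dvd_right (hQ1 _ _) _) ?_
    exact (pow_dvd_pow _ (by omega)).trans h1
  have hv : IsUnit (1 + ex 1 : ℂ⟦X⟧) := by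
    rw [isUnit_iff_constantCoeff, map_add, map_one, constantCoeff_ex, isUnit_iff_ne_zero]
    norm_num
  have hw2 : rescale (2 : ℂ) w = w * (1 + ex 1) := by
    rw [w, map_sub, map_one, rescale_ex, two_mul, ← ex_mul]
    ring
  have hb2 : IsUnit (rescale (2 : ℂ) be) := hub'.map _
  have hW1 : ∀ j, j ≤ c → (X : ℂ⟦X⟧) ^ (N + 1 - c) ∣
      w ^ c * be * rescale (2 : ℂ) (r j) - ev (S j) := by
    intro j hj
    have h1 := (dvd_iff _ _).mp (hsw j hj)
    rw [map_sub, map_mul, map_mul, ev_expand, ev_expand, hevP, hevB] at h1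
    simp only [map_mul, map_pow, hw2] at h1
    have h2 : w ^ c * be * ((w * (1 + ex 1)) ^ c * (rescale (2 : ℂ) be * rescale (2 : ℂ) (r j))) -
        ev (S j) * ((w * (1 + ex 1)) ^ c * rescale (2 : ℂ) be) =
        w ^ c * ((1 + ex 1) ^ c * (rescale (2 : ℂ) be *
          (w ^ c * be * rescale (2 : ℂ) (r j) - ev (S j)))) := by
      rw [mul_pow]; ring
    have h3 : N + 1 = c + (N + 1 - c) := by omega
    rw [h2, h3, dvd_w_mul_iff, (hv.pow c).dvd_mul_left, hb2.dvd_mul_left] at h1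
    exact h1
  have hfe : ∀ j, j ≤ c → (X : ℂ⟦X⟧) ^ (N + 1 - 2 * c) ∣
      ∑ q ∈ Finset.HasAntidiagonal.antidiagonal (2 * j), (-1) ^ q.2 * (r q.1 * r q.2) -
        (-1) ^ j * rescale (2 : ℂ) (r j) := by
    intro j hj
    have h1 := dvd_sub (hT1 j hj) (dvd_mul_of_dvd_right (hW1 j hj) ((-1) ^ j))
    have h2 : w ^ c * be * (∑ q ∈ Finset.HasAntidiagonal.antidiagonal (2 * j),
        (-1) ^ q.2 * (r q.1 * r q.2)) - (-1) ^ j * ev (S j) -
        (-1) ^ j * (w ^ c * be * rescale (2 : ℂ) (r j) - ev (S j)) =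
        w ^ c * (be * (∑ q ∈ Finset.HasAntidiagonal.antidiagonal (2 * j),
          (-1) ^ q.2 * (r q.1 * r q.2) - (-1) ^ j * rescale (2 : ℂ) (r j))) := by ring
    have h3 : N + 1 - c = c + (N + 1 - 2 * c) := by omega
    rw [h2, h3, dvd_w_mul_iff, hub'.dvd_mul_left] at h1
    exact h1
  have hkz1 : (X : ℂ⟦X⟧) ^ (N + 1 - 2 * c) ∣
      ∑ j ∈ Finset.range (c + 1), (-1) ^ j * r j - ∏ i, (1 - ex (d i)) := by
    have h1 := (dvd_iff _ _).mp hkz
    rw [map_sub, map_mul, map_sum] at h1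
    have h2 : ev B * ev B - ∑ x ∈ Finset.range (c + 1), ev ((-1) ^ x * P x) =
        w ^ c * (be * (ev B - ∑ j ∈ Finset.range (c + 1), (-1) ^ j * r j)) := by
      have h4 : ∀ x, ev ((-1) ^ x * P x) = w ^ c * (be * ((-1) ^ x * r x)) := by
        intro x
        rw [map_mul, map_pow, map_neg, map_one, hevP]
        ring
      rw [Finset.sum_congr rfl fun x _ => h4 x, ← Finset.mul_sum, ← Finset.mul_sum]
      nth_rewrite 1 [hevB]
      ring
    have h3 : N + 1 = c + (N + 1 - c) := by omega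
    rw [h2, h3, dvd_w_mul_iff, hub'.dvd_mul_left, hevB', ← dvd_neg, neg_sub] at h1
    exact (pow_dvd_pow _ (by omega)).trans h1
  have hfin := r_eq c (N + 1 - 2 * c) (by omega) d hd r hrconst
    (by rw [hr0, sub_self]; exact dvd_zero _) hrc hfe hkz1 j
  rw [dvd_iff]
  have h1 : ev (P j - (∑ A ∈ Finset.powersetCard j Finset.univ,
      Polynomial.X ^ ∑ i ∈ A, d i) * B) = w ^ c * (be * (r j -
        ∑ A ∈ Finset.powersetCard j Finset.univ, ex (∑ i ∈ A, (d i : ℂ)))) := by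
    rw [map_sub, map_mul, hevP, hevB, map_sum]
    have h2 : ∀ A : Finset (Fin c), ev (Polynomial.X ^ ∑ i ∈ A, d i) =
        ex (∑ i ∈ A, (d i : ℂ)) := by
      intro A
      rw [ev_X_pow]
      congr 1
      push_cast
      rfl
    rw [Finset.sum_congr rfl fun A _ => h2 A]
    ring
  have h2 : N + 1 - c = c + (N + 1 - 2 * c) := by omega
  rw [h1, h2, dvd_w_mul_iff, hub'.dvd_mul_left]
  exact hfin

end Pool.Agent.Lib.MP_776403_ag.SD2
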