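import Mathlib

/-!
# Stage 2 of THEOREM SD, (LAM) (v): the linearised functional equation

If `e` is a polynomial of degree `≤ c`, `e(0) = 0` and
`(1 + X)^c e(X) + (1 - X)^c e(-X) = 2^k e(X^2)`, then `e = 0` if `k > c` or the coefficient of `X`
in `e` is zero.
-/

set_option autoImplicit false

open Polynomial PowerSeries

noncomputable section

namespace Pool.Agent.Lib.MP_776403_ag.SD2

namespace FeAux

/-- `e / (1 - X)^c`. -/
def gs (c : ℕ) (e : ℂ[X]) : ℂ⟦X⟧ := (e : ℂ⟦X⟧) * (invOneSubPow ℂ c : ℂ⟦X⟧)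

theorem gs_mul (c : ℕ) (e : ℂ[X]) : gs c e * (1 - PowerSeries.X) ^ c = (e : ℂ⟦X⟧) := by
  rw [gs, mul_assoc]
  have h : (invOneSubPow ℂ c : ℂ⟦X⟧) * (1 - PowerSeries.X) ^ c = 1 := by
    rw [← invOneSubPow_inv_eq_one_sub_pow]
    exact (invOneSubPow ℂ c).val_inv
  rw [h, mul_one]

theorem coe_comp_neg (e : ℂ[X]) :
    ((e.comp (-Polynomial.X) : ℂ[X]) : ℂ⟦X⟧) = evalNegHom (e : ℂ⟦X⟧) := by
  ext n
  rw [evalNegHom, coeff_rescale, Polynomial.coeff_coe, Polynomial.coeff_coe]
  have h : e.comp (-Polynomial.X) = e.comp (Polynomial.C (-1) * Polynomial.X) := by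
    congr 1
    simp
  rw [h, Polynomial.comp_C_mul_X_coeff, mul_comm]

theorem coe_comp_sq (e : ℂ[X]) :
    ((e.comp (Polynomial.X ^ 2) : ℂ[X]) : ℂ⟦X⟧) =
      PowerSeries.expand 2 two_ne_zero (e : ℂ⟦X⟧) := by
  ext n
  rw [← Polynomial.expand_eq_comp_X_pow, Polynomial.coeff_coe, PowerSeries.coeff_expand,
    Polynomial.coeff_expand two_pos, Polynomial.coeff_coe]

/-- The coefficients of `g = e / (1 - X)^c`. -/
theorem gs_two (c k : ℕ) (hk : 1 ≤ k) (e : ℂ[X])
    (h : (1 + Polynomial.X) ^ c * e + (1 - Polynomial.X) ^ c * e.comp (-Polynomial.X) =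
      Polynomial.C (2 ^ k) * e.comp (Polynomial.X ^ 2)) (n : ℕ) :
    (gs c e).coeff (2 * n) = 2 ^ (k - 1) * (gs c e).coeff n := by
  set g := gs c e with hg
  have h1 := congrArg (fun p : ℂ[X] => (p : ℂ⟦X⟧)) h
  simp only [Polynomial.coe_add, Polynomial.coe_mul, Polynomial.coe_pow, Polynomial.coe_one,
    Polynomial.coe_X, Polynomial.coe_sub, Polynomial.coe_C, coe_comp_neg, coe_comp_sq] at h1
  rw [← gs_mul c e, ← hg] at h1
  simp only [map_mul, map_pow, map_sub, map_one, evalNegHom_X, PowerSeries.expand_X] at h1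
  have h2 : (1 - (PowerSeries.X : ℂ⟦X⟧) ^ 2) ^ c * (g + evalNegHom g) =
      (1 - (PowerSeries.X : ℂ⟦X⟧) ^ 2) ^ c *
        (PowerSeries.C ((2 : ℂ) ^ k) * PowerSeries.expand 2 two_ne_zero g) := by
    have h3 : (1 - (PowerSeries.X : ℂ⟦X⟧) ^ 2) ^ c =
        (1 + PowerSeries.X) ^ c * (1 - PowerSeries.X) ^ c := by
      rw [← mul_pow]
      ring
    have h4 : (1 - -(PowerSeries.X : ℂ⟦X⟧)) ^ c = (1 + PowerSeries.X) ^ c := by
      rw [sub_neg_eq_add]
    rw [h4] at h1
    calc (1 - (PowerSeries.X : ℂ⟦X⟧) ^ 2) ^ c * (g + evalNegHom g)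
        = (1 + PowerSeries.X) ^ c * (g * (1 - PowerSeries.X) ^ c) +
          (1 - PowerSeries.X) ^ c * (evalNegHom g * (1 + PowerSeries.X) ^ c) := by
          rw [h3]; ring
      _ = _ := by
          rw [h1]; simp only [map_pow]; ring
  have h5 : (1 - (PowerSeries.X : ℂ⟦X⟧) ^ 2) ^ c ≠ 0 := by
    apply pow_ne_zero
    intro h6
    have h7 := congrArg PowerSeries.constantCoeff h6
    simp at h7
  have h6 := mul_left_cancel₀ h5 h2
  have h7 := congrArg (PowerSeries.coeff (2 * n)) h6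
  rw [map_add, evalNegHom, coeff_rescale, PowerSeries.coeff_C_mul,
    PowerSeries.coeff_expand_mul] at h7
  rw [pow_mul] at h7
  have h8 : ((-1 : ℂ) ^ 2) ^ n = 1 := by norm_num
  rw [h8, one_mul] at h7
  obtain ⟨m, rfl⟩ := Nat.exists_eq_succ_of_ne_zero (Nat.one_le_iff_ne_zero.mp hk)
  rw [Nat.succ_sub_one]
  rw [Nat.succ_eq_add_one, pow_succ] at h7
  linear_combination (1 / 2 : ℂ) * h7

theorem gs_pow (c k : ℕ) (hk : 1 ≤ k) (e : ℂ[X])
    (h : (1 + Polynomial.X) ^ c * e + (1 - Polynomial.X) ^ c * e.comp (-Polynomial.X) =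
      Polynomial.C (2 ^ k) * e.comp (Polynomial.X ^ 2)) (n j : ℕ) :
    (gs c e).coeff (2 ^ j * n) = (2 ^ (k - 1)) ^ j * (gs c e).coeff n := by
  induction j with
  | zero => simp
  | succ j ih =>
    have h1 : 2 ^ (j + 1) * n = 2 * (2 ^ j * n) := by rw [pow_succ]; ring
    rw [h1, gs_two c k hk e h, ih, pow_succ]
    ring

/-- If the Hilbert polynomial of `g` is zero then `e = 0`. -/
theorem eq_zero_of_hilb (c k : ℕ) (hk : 1 ≤ k) (e : ℂ[X]) (h0 : e.coeff 0 = 0)
    (h : (1 + Polynomial.X) ^ c * e + (1 - Polynomial.X) ^ c * e.comp (-Polynomial.X) =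
      Polynomial.C (2 ^ k) * e.comp (Polynomial.X ^ 2)) (hz : hilbertPoly e c = 0) : e = 0 := by
  have h1 : gs c e = 0 := by
    ext n
    rw [map_zero]
    rcases Nat.eq_zero_or_pos n with rfl | hn
    · rw [gs, PowerSeries.coeff_zero_eq_constantCoeff_apply, map_mul,
        ← PowerSeries.coeff_zero_eq_constantCoeff_apply, Polynomial.coeff_coe, h0, zero_mul]
    · obtain ⟨j, hj⟩ : ∃ j : ℕ, e.natDegree < 2 ^ j := ⟨_, Nat.lt_two_pow_self⟩
      have h2 : e.natDegree < 2 ^ j * n := lt_of_lt_of_le hj (Nat.le_mul_of_pos_right _ hn)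
      have h3 : (gs c e).coeff (2 ^ j * n) = 0 := by
        rw [gs, coeff_mul_invOneSubPow_eq_hilbertPoly_eval c h2, hz, eval_zero]
      rw [gs_pow c k hk e h] at h3
      rcases mul_eq_zero.mp h3 with h4 | h4
      · exact absurd h4 (pow_ne_zero _ (pow_ne_zero _ two_ne_zero))
      · exact h4
  have h2 := gs_mul c e
  rw [h1, zero_mul] at h2
  exact_mod_cast h2.symm

end FeAux

open FeAux

/-- Uniqueness in the linearised functional equation. -/
theorem fe_zero (c k : ℕ) (hk : 1 ≤ k) (e : ℂ[X]) (h0 : e.coeff 0 = 0)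
    (h : (1 + Polynomial.X) ^ c * e + (1 - Polynomial.X) ^ c * e.comp (-Polynomial.X) =
      Polynomial.C (2 ^ k) * e.comp (Polynomial.X ^ 2)) (h1 : c < k ∨ e.coeff 1 = 0) : e = 0 := by
  apply eq_zero_of_hilb c k hk e h0 h
  by_contra hP
  set P := hilbertPoly e c with hPdef
  -- `P(2^j n) = 2^((k-1) j) g_n` for `2^j n > deg e`
  have hev : ∀ n : ℕ, e.natDegree < n → P.eval (n : ℂ) = (gs c e).coeff n := fun n hn => by
    rw [gs, coeff_mul_invOneSubPow_eq_hilbertPoly_eval c hn]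
  rcases h1 with h1 | h1
  · -- degrees
    have h2 : P.comp (Polynomial.C 2 * Polynomial.X) = Polynomial.C (2 ^ (k - 1)) * P := by
      apply Polynomial.eq_of_infinite_eval_eq
      refine Set.Infinite.mono (s := Set.range fun n : ℕ => ((e.natDegree + 1 + n : ℕ) : ℂ)) ?_
        (Set.infinite_range_of_injective fun a b hab => ?_)
      · rintro _ ⟨n, rfl⟩
        simp only [Set.mem_ofPred_eq]
        rw [Polynomial.eval_comp, Polynomial.eval_mul, Polynomial.eval_mul, Polynomial.eval_C,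
          Polynomial.eval_X, Polynomial.eval_C, hev _ (by omega)]
        have h3 : (2 : ℂ) * ((e.natDegree + 1 + n : ℕ) : ℂ) =
            ((2 * (e.natDegree + 1 + n) : ℕ) : ℂ) := by push_cast; ring
        rw [h3, hev _ (by omega), gs_two c k hk e h]
      · have := Nat.cast_injective (R := ℂ) hab
        omega
    have h3 := congrArg (fun p : ℂ[X] => p.coeff P.natDegree) h2
    simp only [Polynomial.comp_C_mul_X_coeff, Polynomial.coeff_C_mul] at h3
    have h4 : P.coeff P.natDegree ≠ 0 := by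
      rw [Polynomial.coeff_natDegree]
      exact Polynomial.leadingCoeff_ne_zero.mpr hP
    have h5 : (2 : ℂ) ^ P.natDegree = 2 ^ (k - 1) := by
      apply mul_left_cancel₀ h4
      rw [h3, mul_comm]
    have h6 : P.natDegree = k - 1 := by
      have h7 : ((2 ^ P.natDegree : ℕ) : ℂ) = ((2 ^ (k - 1) : ℕ) : ℂ) := by
        push_cast; exact h5
      exact Nat.pow_right_injective (le_refl 2) (Nat.cast_injective h7)
    have h7 : P.natDegree = c - e.rootMultiplicity 1 - 1 :=
      natDegree_hilbertPoly_of_ne_zero hP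
    have h8 : e.rootMultiplicity 1 < c := by
      by_contra h9
      exact hP (hilbertPoly_eq_zero_of_le_rootMultiplicity_one (not_lt.mp h9))
    omega
  · -- `g_1 = 0`
    have h2 : (gs c e).coeff 1 = 0 := by
      rw [gs, PowerSeries.coeff_mul, Finset.Nat.sum_antidiagonal_eq_sum_range_succ_mk,
        Finset.sum_range_succ, Finset.sum_range_one, Polynomial.coeff_coe, Polynomial.coeff_coe,
        h0, h1, zero_mul, zero_mul, add_zero]
    apply hP
    apply Polynomial.eq_zero_of_infinite_isRoot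
    obtain ⟨j0, hj0⟩ : ∃ j : ℕ, e.natDegree < 2 ^ j := ⟨_, Nat.lt_two_pow_self⟩
    refine Set.Infinite.mono (s := Set.range fun j : ℕ => ((2 ^ (j0 + j) : ℕ) : ℂ)) ?_
        (Set.infinite_range_of_injective fun a b hab => ?_)
    · rintro _ ⟨j, rfl⟩
      simp only [Set.mem_ofPred_eq, Polynomial.IsRoot.def]
      have h3 : e.natDegree < 2 ^ (j0 + j) :=
        lt_of_lt_of_le hj0 (Nat.pow_le_pow_right two_pos (by omega))
      rw [hev _ h3, ← mul_one (2 ^ (j0 + j)), gs_pow c k hk e h, h2, mul_zero]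
    · have h3 := Nat.pow_right_injective (le_refl 2) (Nat.cast_injective (R := ℂ) hab)
      omega

end Pool.Agent.Lib.MP_776403_ag.SD2
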