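import Pool.Agent.Lib.MP_776403_ag.NS.H

/-!
# Power sums: existence and uniqueness over the complex numbers
-/

set_option autoImplicit false

open Finset

noncomputable section

namespace Pool.Agent.Lib.MP_776403_ag.SD2

namespace NewAux

/-- The elementary symmetric functions computed from prescribed power sums. -/
def eN (a : ℕ → ℂ) : ℕ → ℂ
  | 0 => 1
  | k + 1 => ((-1) ^ (k + 2) / ((k : ℂ) + 1)) *
      ∑ i : Fin (k + 1), (-1) ^ (i : ℕ) * eN a i * a (k + 1 - i)

theorem eN_zero (a : ℕ → ℂ) : eN a 0 = 1 := by rw [eN]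

theorem eN_mul (a : ℕ → ℂ) (k : ℕ) : (k : ℂ) * eN a k =
    (-1) ^ (k + 1) * ∑ p ∈ antidiagonal k with p.1 < k, (-1) ^ p.1 * eN a p.1 * a p.2 := by
  cases k with
  | zero => simp
  | succ k =>
    have h1 : ∑ p ∈ antidiagonal (k + 1) with p.1 < k + 1, (-1) ^ p.1 * eN a p.1 * a p.2 =
        ∑ i ∈ range (k + 1), (-1) ^ i * eN a i * a (k + 1 - i) := by
      rw [Finset.sum_filter, Finset.Nat.sum_antidiagonal_eq_sum_range_succ_mk,
        Finset.sum_range_succ, if_neg (lt_irrefl _), add_zero]
      exact Finset.sum_congr rfl fun i hi => if_pos (Finset.mem_range.mp hi)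
    rw [h1, eN, Fin.sum_univ_eq_sum_range (fun i => (-1 : ℂ) ^ i * eN a i * a (k + 1 - i))]
    have h2 : ((k : ℂ) + 1) ≠ 0 := by exact_mod_cast Nat.succ_ne_zero k
    push_cast
    field_simp

open Polynomial in
theorem exists_esymm (c : ℕ) (e : ℕ → ℂ) (he : e 0 = 1) : ∃ y : Fin c → ℂ,
    ∀ j, j ≤ c → MvPolynomial.aeval y (MvPolynomial.esymm (Fin c) ℂ j) = e j := by
  set f : ℂ[X] := ∑ j ∈ range (c + 1), (-1) ^ j * (C (e j) * X ^ (c - j)) with hf
  have hco : ∀ j, j ≤ c → f.coeff (c - j) = (-1) ^ j * e j := by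
    intro j hj
    rw [hf, finsetSum_coeff, Finset.sum_eq_single j]
    · have h1 : ((-1 : ℂ[X]) ^ j * (C (e j) * X ^ (c - j))) =
          C ((-1) ^ j * e j) * X ^ (c - j) := by
        simp only [map_mul, map_pow, map_neg, map_one]
        ring
      rw [h1, coeff_C_mul, coeff_X_pow, if_pos rfl, mul_one]
    · intro i hi hij
      have h1 : ((-1 : ℂ[X]) ^ i * (C (e i) * X ^ (c - i))) =
          C ((-1) ^ i * e i) * X ^ (c - i) := by
        simp only [map_mul, map_pow, map_neg, map_one]
        ring
      rw [h1, coeff_C_mul, coeff_X_pow, if_neg, mul_zero]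
      have := Finset.mem_range.mp hi
      omega
    · intro hj'
      exact absurd (Finset.mem_range.mpr (by omega)) hj'
  have hdeg : f.natDegree ≤ c := by
    apply natDegree_sum_le_of_forall_le
    intro i _
    refine (natDegree_mul_le).trans ?_
    have h1 : ((-1 : ℂ[X]) ^ i).natDegree = 0 := by
      have : ((-1 : ℂ[X]) ^ i) = C ((-1) ^ i) := by simp
      rw [this, natDegree_C]
    rw [h1, zero_add]
    refine (natDegree_C_mul_X_pow_le _ _).trans (Nat.sub_le _ _)
  have hlead : f.coeff c = 1 := by
    have := hco 0 (Nat.zero_le _)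
    rw [Nat.sub_zero, pow_zero, one_mul, he] at this
    exact this
  have hnd : f.natDegree = c :=
    le_antisymm hdeg (le_natDegree_of_ne_zero (by rw [hlead]; exact one_ne_zero))
  have hmonic : f.Monic := by rw [Monic, leadingCoeff, hnd, hlead]
  have hsp : f.Splits := IsAlgClosed.splits f
  have hcard : Multiset.card f.roots = c := by
    rw [← hnd]; exact (splits_iff_card_roots.mp hsp)
  have hprod : (f.roots.map fun a => X - C a).prod = f :=
    (hsp.eq_prod_roots_of_monic hmonic).symm
  obtain ⟨y, hy⟩ : ∃ y : Fin c → ℂ, (univ : Finset (Fin c)).val.map y = f.roots := by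
    obtain ⟨l, hl⟩ := Quot.exists_rep f.roots
    have hl' : (l : Multiset ℂ) = f.roots := hl
    have hlen : l.length = c := by rw [← hcard, ← hl', Multiset.coe_card]
    subst hlen
    refine ⟨l.get, ?_⟩
    rw [← hl']
    have : (univ : Finset (Fin l.length)).val = (List.finRange l.length : Multiset _) := rfl
    rw [this, Multiset.map_coe, List.map_get_finRange]
  refine ⟨y, fun j hj => ?_⟩
  rw [MvPolynomial.aeval_esymm_eq_multiset_esymm, hy]
  have h1 := Multiset.prod_X_sub_X_eq_sum_esymm f.roots
  rw [hprod, hcard] at h1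
  have h2 := hco j hj
  rw [h1, finsetSum_coeff, Finset.sum_eq_single j] at h2
  · have h3 : ((-1 : ℂ[X]) ^ j * (C (f.roots.esymm j) * X ^ (c - j))) =
        C ((-1) ^ j * f.roots.esymm j) * X ^ (c - j) := by
      simp only [map_mul, map_pow, map_neg, map_one]
      ring
    rw [h3, coeff_C_mul, coeff_X_pow, if_pos rfl, mul_one] at h2
    exact mul_left_cancel₀ (pow_ne_zero _ (neg_ne_zero.mpr one_ne_zero)) h2
  · intro i hi hij
    have h3 : ((-1 : ℂ[X]) ^ i * (C (f.roots.esymm i) * X ^ (c - i))) =
        C ((-1) ^ i * f.roots.esymm i) * X ^ (c - i) := by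
      simp only [map_mul, map_pow, map_neg, map_one]
      ring
    rw [h3, coeff_C_mul, coeff_X_pow, if_neg, mul_zero]
    have := Finset.mem_range.mp hi
    omega
  · intro hj'
    exact absurd (Finset.mem_range.mpr (by omega)) hj'

end NewAux

open NewAux

/-- Complex numbers with prescribed power sums. -/
theorem exists_psum (c : ℕ) (a : ℕ → ℂ) :
    ∃ y : Fin c → ℂ, ∀ k, 1 ≤ k → k ≤ c → ∑ i, y i ^ k = a k := by
  obtain ⟨y, hy⟩ := exists_esymm c (eN a) (eN_zero a)
  refine ⟨y, fun k => ?_⟩
  induction k using Nat.strong_induction_on with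
  | _ k ih =>
    intro hk hkc
    have e1 := congrArg (fun p => MvPolynomial.aeval y p)
      (MvPolynomial.mul_esymm_eq_sum (Fin c) ℂ k)
    simp only [map_mul, map_natCast, map_pow, map_neg, map_one, map_sum] at e1
    have hps : ∀ j : ℕ, MvPolynomial.aeval y (MvPolynomial.psum (Fin c) ℂ j) =
        ∑ s, y s ^ j := by
      intro j
      simp [MvPolynomial.psum]
    rw [hy k hkc, eN_mul] at e1
    have e2 := mul_left_cancel₀ (pow_ne_zero _ (neg_ne_zero.mpr one_ne_zero)) e1
    have h0 : ((0, k) : ℕ × ℕ) ∈ (antidiagonal k).filter (fun p => p.1 < k) := by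
      simp only [Finset.mem_filter, HasAntidiagonal.mem_antidiagonal, zero_add, true_and]
      omega
    rw [← Finset.add_sum_erase _ _ h0, ← Finset.add_sum_erase _ _ h0] at e2
    have e3 : ∑ x ∈ ((antidiagonal k).filter (fun p => p.1 < k)).erase (0, k),
        (-1) ^ x.1 * eN a x.1 * a x.2 =
        ∑ x ∈ ((antidiagonal k).filter (fun p => p.1 < k)).erase (0, k),
        (-1) ^ x.1 * MvPolynomial.aeval y (MvPolynomial.esymm (Fin c) ℂ x.1) *
          MvPolynomial.aeval y (MvPolynomial.psum (Fin c) ℂ x.2) := by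
      apply Finset.sum_congr rfl
      intro p hp
      obtain ⟨hp1, hp2⟩ := Finset.mem_erase.mp hp
      obtain ⟨hp3, hp4⟩ := Finset.mem_filter.mp hp2
      have hp5 := HasAntidiagonal.mem_antidiagonal.mp hp3
      have hp6 : p.1 ≠ 0 := by
        intro h
        apply hp1
        ext
        · exact h
        · simp only
          omega
      rw [hy p.1 (by omega), hps, ih p.2 (by omega) (by omega) (by omega)]
    rw [e3, add_left_inj] at e2
    simp only [pow_zero, one_mul, eN_zero] at e2
    rw [hy 0 (Nat.zero_le _), eN_zero, one_mul, hps] at e2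
    exact e2.symm

/-- Equal power sums: the families agree up to a permutation. -/
theorem perm_of_psum (c : ℕ) (x y : Fin c → ℂ)
    (h : ∀ k, 1 ≤ k → k ≤ c → ∑ i, x i ^ k = ∑ i, y i ^ k) :
    ∃ σ : Equiv.Perm (Fin c), ∀ i, x i = y (σ i) := by
  have h1 := NS.prod_eq x y (by rw [Fintype.card_fin]; exact h)
  have h2 : (univ : Finset (Fin c)).val.map x = (univ : Finset (Fin c)).val.map y := by
    have key : ∀ z : Fin c → ℂ,
        (∏ s, (Polynomial.X - Polynomial.C (z s))).roots =
          (univ : Finset (Fin c)).val.map z := by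
      intro z
      have : (∏ s, (Polynomial.X - Polynomial.C (z s))) =
          (((univ : Finset (Fin c)).val.map z).map
            fun a => Polynomial.X - Polynomial.C a).prod := by
        rw [Multiset.map_map]; rfl
      rw [this, Polynomial.roots_multiset_prod_X_sub_C]
    rw [← key, ← key, h1]
  classical
  have hc : ∀ z, Fintype.card {i // x i = z} = Fintype.card {i // y i = z} := by
    intro z
    have h3 := congrArg (Multiset.count z) h2
    rw [Multiset.count_map, Multiset.count_map] at h3
    rw [Fintype.card_subtype, Fintype.card_subtype]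
    have h4 : ∀ w : Fin c → ℂ, ((univ : Finset (Fin c)).filter fun i => w i = z) =
        (univ : Finset (Fin c)).filter fun i => z = w i := by
      intro w
      exact Finset.filter_congr fun i _ => eq_comm
    rw [h4, h4]
    exact h3
  refine ⟨(Equiv.sigmaFiberEquiv x).symm.trans
    ((Equiv.sigmaCongrRight fun z => Fintype.equivOfCardEq (hc z)).trans
      (Equiv.sigmaFiberEquiv y)), fun i => ?_⟩
  exact (Fintype.equivOfCardEq (hc (x i)) ⟨i, rfl⟩).2.symm

end Pool.Agent.Lib.MP_776403_ag.SD2
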