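import Pool.Agent.Lib.MP_776403_ag.SD2.New

/-!
# Stage 2 of THEOREM SD, (LAM) (vi): the product of the `1 - e^{-x_i u}` determines the `x_i`
-/

set_option autoImplicit false

open PowerSeries

noncomputable section

namespace Pool.Agent.Lib.MP_776403_ag.SD2

/-- `e^{-x u}` as a formal power series in `u`. -/
def ex (x : ℂ) : ℂ⟦X⟧ := rescale (-x) (exp ℂ)

theorem ex_mul (x y : ℂ) : ex x * ex y = ex (x + y) := by
  rw [ex, ex, ex, exp_mul_exp_eq_exp_add, neg_add]

theorem ex_zero : ex 0 = 1 := by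
  ext n
  rw [ex, coeff_rescale, neg_zero, coeff_exp]
  cases n with
  | zero => simp
  | succ n => simp [coeff_one]

theorem coeff_ex (x : ℂ) (n : ℕ) : coeff n (ex x) = (-x) ^ n / (n.factorial : ℂ) := by
  rw [ex, coeff_rescale, coeff_exp]
  simp only [one_div, map_inv₀, map_natCast]
  rw [div_eq_mul_inv]

theorem constantCoeff_ex (x : ℂ) : constantCoeff (ex x) = 1 := by
  rw [← coeff_zero_eq_constantCoeff_apply, coeff_ex]
  simp

theorem rescale_ex (a x : ℂ) : rescale a (ex x) = ex (a * x) := by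
  ext n
  rw [coeff_rescale, coeff_ex, coeff_ex, ← mul_neg, mul_pow, mul_div_assoc]

namespace TdAux

/-- `(1 - e^{-z}) / z`. -/
def ph : ℂ⟦X⟧ := PowerSeries.mk fun n => (-1) ^ n / ((n + 1).factorial : ℂ)

theorem one_sub_ex (x : ℂ) : 1 - ex x = C x * (X * rescale x ph) := by
  ext n
  rw [coeff_C_mul, map_sub, coeff_ex]
  cases n with
  | zero => simp
  | succ n =>
    rw [coeff_succ_X_mul, coeff_rescale, ph, coeff_mk, coeff_one, if_neg (Nat.succ_ne_zero n)]
    rw [neg_pow, pow_succ, pow_succ]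
    ring

theorem rescale_one' (f : ℂ⟦X⟧) : rescale (1 : ℂ) f = f := by
  rw [rescale_one]; rfl

theorem X_mul_ph : X * ph = 1 - ex 1 := by
  rw [one_sub_ex, map_one, one_mul, rescale_one']

/-- the logarithmic derivative -/
def be : ℂ⟦X⟧ := bernoulliPowerSeries ℂ - 1

theorem bern_mul_ph : bernoulliPowerSeries ℂ * ph = ex 1 := by
  have h1 : exp ℂ * ex 1 = 1 := by
    have h := exp_mul_exp_eq_exp_add (1 : ℂ) (-1)
    rw [rescale_one', add_neg_cancel] at h
    rw [ex, h]
    have h2 := ex_zero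
    rwa [ex, neg_zero] at h2
  have h3 := bernoulliPowerSeries_mul_exp_sub_one ℂ
  have h4 : X * (bernoulliPowerSeries ℂ * ph) = X * ex 1 := by
    calc X * (bernoulliPowerSeries ℂ * ph) = bernoulliPowerSeries ℂ * (X * ph) := by ring
      _ = bernoulliPowerSeries ℂ * (1 - ex 1) := by rw [X_mul_ph]
      _ = bernoulliPowerSeries ℂ * (exp ℂ * ex 1 - ex 1) := by rw [h1]
      _ = (bernoulliPowerSeries ℂ * (exp ℂ - 1)) * ex 1 := by ring
      _ = X * ex 1 := by rw [h3]
  exact mul_left_cancel₀ X_ne_zero h4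

/-- The Euler operator. -/
def th (f : ℂ⟦X⟧) : ℂ⟦X⟧ := X * derivative ℂ f

theorem coeff_th (f : ℂ⟦X⟧) (n : ℕ) : coeff n (th f) = n * coeff n f := by
  rw [th]
  cases n with
  | zero => simp
  | succ n =>
    rw [coeff_succ_X_mul, coeff_derivative]
    push_cast
    ring

theorem th_mul (f g : ℂ⟦X⟧) : th (f * g) = th f * g + f * th g := by
  rw [th, Derivation.leibniz, th, th, smul_eq_mul, smul_eq_mul]
  ring

theorem th_sub (f g : ℂ⟦X⟧) : th (f - g) = th f - th g := by
  rw [th, map_sub, th, th]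
  ring

theorem th_rescale (x : ℂ) (f : ℂ⟦X⟧) : th (rescale x f) = rescale x (th f) := by
  ext n
  rw [coeff_th, coeff_rescale, coeff_rescale, coeff_th]
  ring

theorem th_ph : th ph = be * ph := by
  rw [be, sub_mul, one_mul, bern_mul_ph]
  ext n
  rw [coeff_th, map_sub, coeff_ex, ph, coeff_mk]
  have h1 : ((n.factorial : ℕ) : ℂ) ≠ 0 := by exact_mod_cast n.factorial_ne_zero
  have h2 : ((n : ℂ) + 1) ≠ 0 := by exact_mod_cast Nat.succ_ne_zero n
  rw [Nat.factorial_succ]
  push_cast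
  field_simp
  ring

variable {c : ℕ}

/-- The product of the `ph (x_i u)`. -/
def pr (x : Fin c → ℂ) (s : Finset (Fin c)) : ℂ⟦X⟧ := ∏ i ∈ s, rescale (x i) ph

theorem th_pr (x : Fin c → ℂ) (s : Finset (Fin c)) :
    th (pr x s) = (∑ i ∈ s, rescale (x i) be) * pr x s := by
  classical
  induction s using Finset.induction_on with
  | empty =>
    rw [pr, Finset.prod_empty, Finset.sum_empty, zero_mul, th]
    rw [derivative_one, mul_zero]
  | insert a s ha ih =>
    rw [pr, Finset.prod_insert ha, Finset.sum_insert ha, th_mul, th_rescale, th_ph, map_mul]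
    rw [pr] at ih
    rw [ih]
    ring

theorem pr_const (x : Fin c → ℂ) (s : Finset (Fin c)) : constantCoeff (pr x s) = 1 := by
  rw [pr, map_prod]
  apply Finset.prod_eq_one
  intro i _
  rw [← coeff_zero_eq_constantCoeff_apply, coeff_rescale, ph, coeff_mk]
  simp

theorem prod_one_sub (x : Fin c → ℂ) :
    ∏ i, (1 - ex (x i)) = X ^ c * (C (∏ i, x i) * pr x Finset.univ) := by
  rw [Finset.prod_congr rfl fun i _ => one_sub_ex (x i), Finset.prod_mul_distrib,
    Finset.prod_mul_distrib, Finset.prod_const, Finset.card_univ, Fintype.card_fin, map_prod, pr]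
  ring

theorem coeff_be (x : ℂ) (n : ℕ) (hn : 1 ≤ n) :
    coeff n (rescale x be) = x ^ n * ((bernoulli n / n.factorial : ℚ) : ℂ) := by
  rw [coeff_rescale, be, map_sub, bernoulliPowerSeries, coeff_mk, coeff_one,
    if_neg (by omega), sub_zero]
  rfl

/-- The logarithmic derivatives agree. -/
theorem psum_of_pr (K : ℕ) (x y : Fin c → ℂ)
    (h : X ^ K ∣ pr x Finset.univ - pr y Finset.univ) (n : ℕ) (hn : 1 ≤ n) (hnK : n < K)
    (hb : bernoulli n ≠ 0) : ∑ i, x i ^ n = ∑ i, y i ^ n := by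
  set F := pr x Finset.univ with hF
  set G := pr y Finset.univ with hG
  have h1 : X ^ K ∣ th (F - G) := by
    rw [X_pow_dvd_iff] at h ⊢
    intro m hm
    rw [coeff_th, h m hm, mul_zero]
  rw [th_sub, hF, hG, th_pr, th_pr, ← hF, ← hG] at h1
  set Sx := ∑ i, rescale (x i) be with hSx
  set Sy := ∑ i, rescale (y i) be with hSy
  have h2 : X ^ K ∣ (Sx - Sy) * F := by
    have h3 : (Sx - Sy) * F = (Sx * F - Sy * G) - Sy * (F - G) := by ring
    rw [h3]
    exact dvd_sub h1 (dvd_mul_of_dvd_right h _)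
  have hu : IsUnit F := by
    rw [isUnit_iff_constantCoeff, hF, pr_const]
    exact isUnit_one
  have h3 : X ^ K ∣ Sx - Sy := (hu.dvd_mul_right).mp h2
  rw [X_pow_dvd_iff] at h3
  have h4 := h3 n hnK
  rw [map_sub, hSx, hSy, map_sum, map_sum,
    Finset.sum_congr rfl fun i _ => coeff_be (x i) n hn,
    Finset.sum_congr rfl fun i _ => coeff_be (y i) n hn, ← Finset.sum_mul, ← Finset.sum_mul,
    ← sub_mul] at h4
  rcases mul_eq_zero.mp h4 with h5 | h5
  · exact sub_eq_zero.mp h5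
  · exfalso
    have h6 : (bernoulli n / n.factorial : ℚ) = 0 := by exact_mod_cast h5
    rcases div_eq_zero_iff.mp h6 with h7 | h7
    · exact hb h7
    · exact n.factorial_ne_zero (by exact_mod_cast h7)

theorem bern_even (k : ℕ) (hk : k ≠ 0) : bernoulli (2 * k) ≠ 0 := by
  intro h
  have h1 := hasSum_zeta_nat hk
  rw [h] at h1
  simp only [Rat.cast_zero, mul_zero, zero_div] at h1
  have h2 := (hasSum_zero_iff_of_nonneg (fun n => by positivity)).mp h1
  have h3 := congrFun h2 1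
  simp at h3

end TdAux

open TdAux

/-- (vi): the product `∏ (1 - e^{-x_i u})` modulo `u^(3c+1)` determines the `x_i`, if it is the
product for positive integers. -/
theorem eq_of_prod (c M : ℕ) (hM : 3 * c + 1 ≤ M) (d : Fin c → ℕ) (hd : ∀ i, 1 ≤ d i)
    (x : Fin c → ℂ)
    (h : (X : ℂ⟦X⟧) ^ M ∣ ∏ i, (1 - ex (x i)) - ∏ i, (1 - ex (d i))) :
    ∃ σ : Equiv.Perm (Fin c), ∀ i, x i = d (σ i) := by
  set y : Fin c → ℂ := fun i => (d i : ℂ) with hy
  have hyp : ∏ i, (1 - ex ((d i : ℕ) : ℂ)) = ∏ i, (1 - ex (y i)) := rfl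
  rw [hyp, prod_one_sub, prod_one_sub, ← mul_sub] at h
  have h1 : (X : ℂ⟦X⟧) ^ (M - c) ∣
      C (∏ i, x i) * pr x Finset.univ - C (∏ i, y i) * pr y Finset.univ := by
    have h2 : M = c + (M - c) := by omega
    rw [h2, pow_add] at h
    exact (mul_dvd_mul_iff_left (pow_ne_zero c X_ne_zero)).mp h
  have h2 : ∏ i, x i = ∏ i, y i := by
    have h3 := (X_pow_dvd_iff.mp h1) 0 (by omega)
    rw [map_sub, coeff_C_mul, coeff_C_mul, coeff_zero_eq_constantCoeff_apply,
      coeff_zero_eq_constantCoeff_apply, pr_const, pr_const, mul_one, mul_one] at h3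
    exact sub_eq_zero.mp h3
  have h3 : (X : ℂ⟦X⟧) ^ (M - c) ∣ pr x Finset.univ - pr y Finset.univ := by
    rw [h2, ← mul_sub] at h1
    have hu : IsUnit (C (∏ i, y i) : ℂ⟦X⟧) := by
      rw [isUnit_iff_constantCoeff, constantCoeff_C, isUnit_iff_ne_zero]
      apply Finset.prod_ne_zero_iff.mpr
      intro i _
      have h4 := hd i
      have h5 : d i ≠ 0 := by omega
      change ((d i : ℕ) : ℂ) ≠ 0
      exact_mod_cast h5
    exact (hu.dvd_mul_left).mp h1
  have h4 : ∀ k, 1 ≤ k → k ≤ c → ∑ i, (x i ^ 2) ^ k = ∑ i, (y i ^ 2) ^ k := by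
    intro k hk hkc
    simp only [← pow_mul]
    exact psum_of_pr (M - c) x y h3 (2 * k) (by omega) (by omega) (bern_even k (by omega))
  obtain ⟨σ, hσ⟩ := perm_of_psum c (fun i => x i ^ 2) (fun i => y i ^ 2) h4
  refine ⟨σ, ?_⟩
  have h5 : ∑ i, x i = ∑ i, y i := by
    rcases Nat.eq_zero_or_pos c with rfl | hc
    · simp
    · have h6 := psum_of_pr (M - c) x y h3 1 le_rfl (by omega) (by rw [bernoulli_one]; norm_num)
      simpa using h6
  have h6 : ∑ i, (y (σ i) - x i) = 0 := by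
    rw [Finset.sum_sub_distrib, h5, Equiv.sum_comp σ y, sub_self]
  have h7 : ∀ i, x i = y (σ i) ∨ x i = - y (σ i) := by
    intro i
    exact sq_eq_sq_iff_eq_or_eq_neg.mp (hσ i)
  have h8 : ∀ i, 0 ≤ (y (σ i) - x i).re := by
    intro i
    rcases h7 i with h9 | h9
    · rw [h9, sub_self]; simp
    · rw [h9, hy]
      simp only [sub_neg_eq_add, Complex.add_re, Complex.natCast_re]
      positivity
  have h9 : ∑ i, (y (σ i) - x i).re = 0 := by
    rw [← Complex.re_sum, h6, Complex.zero_re]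
  intro i
  have h10 := (Finset.sum_eq_zero_iff_of_nonneg fun i _ => h8 i).mp h9 i (Finset.mem_univ i)
  rcases h7 i with h11 | h11
  · exact h11
  · exfalso
    rw [h11, hy] at h10
    simp only [sub_neg_eq_add, Complex.add_re, Complex.natCast_re] at h10
    have h12 : (1 : ℝ) ≤ (d (σ i) : ℝ) := by exact_mod_cast hd (σ i)
    linarith

end Pool.Agent.Lib.MP_776403_ag.SD2
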