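import Pool.Agent.Lib.MP_776403_ag.SD2.Fe
import Pool.Agent.Lib.MP_776403_ag.SD2.Td

/-!
# Stage 2 of THEOREM SD, (LAM) (v): the solutions of `r(t; u) r(-t; u) = r(-t^2; 2u)`
-/

set_option autoImplicit false

open PowerSeries

noncomputable section

namespace Pool.Agent.Lib.MP_776403_ag.SD2

namespace SolAux

/-- The coefficient of `u^k` of a polynomial in `t` over the power series in `u`. -/
def cf (k : ℕ) (P : Polynomial ℂ⟦X⟧) : Polynomial ℂ :=
  ∑ j ∈ P.support, Polynomial.C (coeff k (P.coeff j)) * Polynomial.X ^ j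

theorem coeff_cf (k : ℕ) (P : Polynomial ℂ⟦X⟧) (j : ℕ) :
    (cf k P).coeff j = coeff k (P.coeff j) := by
  rw [cf, Polynomial.finsetSum_coeff]
  simp only [Polynomial.coeff_C_mul, Polynomial.coeff_X_pow, mul_ite, mul_one, mul_zero]
  rw [Finset.sum_ite_eq]
  split_ifs with h
  · rfl
  · rw [Polynomial.notMem_support_iff.mp h, map_zero]

theorem cf_mul (k : ℕ) (P Q : Polynomial ℂ⟦X⟧) :
    cf k (P * Q) = ∑ p ∈ Finset.HasAntidiagonal.antidiagonal k, cf p.1 P * cf p.2 Q := by
  ext j
  rw [coeff_cf, Polynomial.coeff_mul, map_sum, Polynomial.finsetSum_coeff]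
  simp only [Polynomial.coeff_mul, PowerSeries.coeff_mul, coeff_cf]
  rw [Finset.sum_comm]

/-- `P(-t)`. -/
def ng {A : Type} [CommRing A] (P : Polynomial A) : Polynomial A :=
  P.comp (-Polynomial.X)

theorem coeff_ng {A : Type} [CommRing A] (P : Polynomial A) (j : ℕ) :
    (ng P).coeff j = (-1) ^ j * P.coeff j := by
  have h : ng P = P.comp (Polynomial.C (-1) * Polynomial.X) := by
    rw [ng]
    congr 1
    simp
  rw [h, Polynomial.comp_C_mul_X_coeff, mul_comm]

theorem ng_mul {A : Type} [CommRing A] (P Q : Polynomial A) : ng (P * Q) = ng P * ng Q := by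
  rw [ng, ng, ng, Polynomial.mul_comp]

theorem ng_sub {A : Type} [CommRing A] (P Q : Polynomial A) : ng (P - Q) = ng P - ng Q := by
  rw [ng, ng, ng, Polynomial.sub_comp]

theorem ng_ng {A : Type} [CommRing A] (P : Polynomial A) : ng (ng P) = P := by
  ext j
  rw [coeff_ng, coeff_ng, ← mul_assoc, ← mul_pow]
  simp

theorem cf_ng (k : ℕ) (P : Polynomial ℂ⟦X⟧) : cf k (ng P) = ng (cf k P) := by
  ext j
  rw [coeff_cf, coeff_ng, coeff_ng, coeff_cf]
  have h : ((-1 : ℂ⟦X⟧) ^ j) = C ((-1 : ℂ) ^ j) := by simp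
  rw [h, coeff_C_mul]

theorem cf_ex (k : ℕ) (P : Polynomial ℂ⟦X⟧) :
    cf k (Polynomial.expand ℂ⟦X⟧ 2 (P.map (rescale (2 : ℂ)))) =
      Polynomial.C (2 ^ k) * Polynomial.expand ℂ 2 (cf k P) := by
  ext j
  rw [coeff_cf, Polynomial.coeff_expand two_pos, Polynomial.coeff_C_mul,
    Polynomial.coeff_expand two_pos]
  split_ifs with h
  · rw [Polynomial.coeff_map, coeff_rescale, coeff_cf]
  · rw [map_zero, mul_zero]

theorem ng_map (P : Polynomial ℂ⟦X⟧) :
    ng (P.map (rescale (2 : ℂ))) = (ng P).map (rescale (2 : ℂ)) := by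
  ext j : 1
  rw [coeff_ng, Polynomial.coeff_map, Polynomial.coeff_map, coeff_ng]
  simp

/-- The functional equation at the level `u^k`. -/
def FE (M : ℕ) (R : Polynomial ℂ⟦X⟧) : Prop :=
  ∀ k, k < M → ∑ p ∈ Finset.HasAntidiagonal.antidiagonal k, cf p.1 R * ng (cf p.2 R) =
    Polynomial.C (2 ^ k) * Polynomial.expand ℂ 2 (ng (cf k R))

theorem fe_of_dvd (M : ℕ) (R : Polynomial ℂ⟦X⟧)
    (h : ∀ n, (X : ℂ⟦X⟧) ^ M ∣ (R * ng R -
      Polynomial.expand ℂ⟦X⟧ 2 (ng (R.map (rescale (2 : ℂ))))).coeff n) : FE M R := by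
  intro k hk
  have h1 : cf k (R * ng R) = cf k (Polynomial.expand ℂ⟦X⟧ 2 (ng (R.map (rescale (2 : ℂ))))) := by
    ext n
    rw [coeff_cf, coeff_cf, ← sub_eq_zero, ← map_sub, ← Polynomial.coeff_sub]
    exact (X_pow_dvd_iff.mp (h n)) k hk
  rw [cf_mul, ng_map, cf_ex, cf_ng] at h1
  simp only [cf_ng] at h1
  exact h1

theorem uniq (c M : ℕ) (R R' : Polynomial ℂ⟦X⟧) (hR : FE M R) (hR' : FE M R')
    (h0 : cf 0 R = (1 + Polynomial.X) ^ c) (h0' : cf 0 R' = (1 + Polynomial.X) ^ c)
    (hz : ∀ k, k < M → coeff k (R.coeff 0) = coeff k (R'.coeff 0))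
    (h1 : ∀ k, 1 ≤ k → k ≤ c → k < M → coeff k (R.coeff 1) = coeff k (R'.coeff 1)) :
    ∀ k, k < M → cf k R = cf k R' := by
  intro k
  induction k using Nat.strong_induction_on with
  | _ k ih =>
    intro hk
    rcases Nat.eq_zero_or_pos k with rfl | hk0
    · rw [h0, h0']
    have e1 := hR k hk
    have e2 := hR' k hk
    have e3 : ∑ p ∈ Finset.HasAntidiagonal.antidiagonal k,
        (cf p.1 R * ng (cf p.2 R) - cf p.1 R' * ng (cf p.2 R')) =
        (1 + Polynomial.X) ^ c * ng (cf k R - cf k R') +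
          (cf k R - cf k R') * ng ((1 + Polynomial.X) ^ c) := by
      rw [Finset.sum_eq_add (0, k) (k, 0)]
      · simp only
        rw [h0, h0', ng_sub]
        ring
      · intro h
        have := congrArg Prod.fst h
        simp only at this
        omega
      · rintro ⟨a, b⟩ hp ⟨hp1, hp2⟩
        have hab := Finset.HasAntidiagonal.mem_antidiagonal.mp hp
        simp only at hab
        have ha : a < k := by
          rcases Nat.lt_or_ge a k with h | h
          · exact h
          · exfalso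
            apply hp2
            ext
            · simp only; omega
            · simp only; omega
        have hb : b < k := by
          rcases Nat.lt_or_ge b k with h | h
          · exact h
          · exfalso
            apply hp1
            ext
            · simp only; omega
            · simp only; omega
        simp only
        rw [ih a ha (by omega), ih b hb (by omega), sub_self]
      · intro h
        exact absurd (Finset.HasAntidiagonal.mem_antidiagonal.mpr (by simp)) h
      · intro h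
        exact absurd (Finset.HasAntidiagonal.mem_antidiagonal.mpr (by simp)) h
    rw [Finset.sum_sub_distrib, e1, e2, ← mul_sub, ← map_sub, ← ng_sub] at e3
    set e : Polynomial ℂ := ng (cf k R - cf k R') with he
    have e4 : cf k R - cf k R' = e.comp (-Polynomial.X) := by
      have := ng_ng (cf k R - cf k R')
      rw [← he] at this
      exact this.symm
    have e5 : ng ((1 + Polynomial.X) ^ c : Polynomial ℂ) = (1 - Polynomial.X) ^ c := by
      rw [ng, Polynomial.pow_comp, Polynomial.add_comp, Polynomial.one_comp, Polynomial.X_comp,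
        ← sub_eq_add_neg]
    have e6 : (1 + Polynomial.X) ^ c * e + (1 - Polynomial.X) ^ c * e.comp (-Polynomial.X) =
        Polynomial.C (2 ^ k) * e.comp (Polynomial.X ^ 2) := by
      rw [← Polynomial.expand_eq_comp_X_pow, e3, e5, e4]
      ring
    have e7 : e = 0 := by
      apply fe_zero c k hk0 e _ e6
      · rcases Nat.lt_or_ge c k with h | h
        · exact Or.inl h
        · right
          rw [he, coeff_ng, Polynomial.coeff_sub, coeff_cf, coeff_cf, h1 k hk0 h hk, sub_self,
            mul_zero]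
      · rw [he, coeff_ng, Polynomial.coeff_sub, coeff_cf, coeff_cf, hz k hk, sub_self, mul_zero]
    rw [e7, Polynomial.zero_comp] at e4
    exact sub_eq_zero.mp e4

/-- The product solution. -/
def sol {c : ℕ} (x : Fin c → ℂ) : Polynomial ℂ⟦X⟧ :=
  ∏ i, (1 + Polynomial.C (ex (x i)) * Polynomial.X)

theorem ex_sum {c : ℕ} (x : Fin c → ℂ) (s : Finset (Fin c)) :
    ∏ i ∈ s, ex (x i) = ex (∑ i ∈ s, x i) := by
  classical
  induction s using Finset.induction_on with
  | empty => rw [Finset.prod_empty, Finset.sum_empty, ex_zero]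
  | insert a s ha ih => rw [Finset.prod_insert ha, Finset.sum_insert ha, ih, ex_mul]

theorem coeff_sol {c : ℕ} (x : Fin c → ℂ) (j : ℕ) :
    (sol x).coeff j = ∑ A ∈ Finset.powersetCard j Finset.univ, ex (∑ i ∈ A, x i) := by
  classical
  rw [sol, Finset.prod_one_add, Polynomial.finsetSum_coeff]
  have h : ∀ A : Finset (Fin c),
      (∏ i ∈ A, (Polynomial.C (ex (x i)) * Polynomial.X)).coeff j =
        if A.card = j then ex (∑ i ∈ A, x i) else 0 := by
    intro A
    rw [Finset.prod_mul_distrib, Finset.prod_const, ← map_prod, Polynomial.coeff_C_mul,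
      Polynomial.coeff_X_pow, ex_sum]
    simp only [mul_ite, mul_one, mul_zero, eq_comm]
  rw [Finset.sum_congr rfl fun A _ => h A, ← Finset.sum_filter]
  apply Finset.sum_congr _ fun _ _ => rfl
  ext A
  simp [Finset.mem_powersetCard]

theorem sol_ng {c : ℕ} (x : Fin c → ℂ) : sol x * ng (sol x) =
    Polynomial.expand ℂ⟦X⟧ 2 (ng ((sol x).map (rescale (2 : ℂ)))) := by
  have h1 : ng (sol x) = ∏ i, (1 - Polynomial.C (ex (x i)) * Polynomial.X) := by
    rw [ng, sol, Polynomial.prod_comp]
    apply Finset.prod_congr rfl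
    intro i _
    rw [Polynomial.add_comp, Polynomial.one_comp, Polynomial.mul_comp, Polynomial.C_comp,
      Polynomial.X_comp]
    ring
  have h2 : ng ((sol x).map (rescale (2 : ℂ))) =
      ∏ i, (1 - Polynomial.C (ex (2 * x i)) * Polynomial.X) := by
    rw [ng, sol, Polynomial.map_prod, Polynomial.prod_comp]
    apply Finset.prod_congr rfl
    intro i _
    rw [Polynomial.map_add, Polynomial.map_one, Polynomial.map_mul, Polynomial.map_C,
      Polynomial.map_X, rescale_ex, Polynomial.add_comp, Polynomial.one_comp, Polynomial.mul_comp,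
      Polynomial.C_comp, Polynomial.X_comp]
    ring
  rw [h1, h2, sol, ← Finset.prod_mul_distrib, map_prod]
  apply Finset.prod_congr rfl
  intro i _
  rw [map_sub, map_one, map_mul, Polynomial.expand_C, Polynomial.expand_X, two_mul, ← ex_mul,
    map_mul]
  ring

theorem cf_zero_sol {c : ℕ} (x : Fin c → ℂ) : cf 0 (sol x) = (1 + Polynomial.X) ^ c := by
  have h : ∀ P : Polynomial ℂ⟦X⟧, cf 0 P = P.map (constantCoeff (R := ℂ)) := by
    intro P
    ext j
    rw [coeff_cf, Polynomial.coeff_map, coeff_zero_eq_constantCoeff_apply]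
  rw [h, sol, Polynomial.map_prod]
  have h1 : ∀ i, (1 + Polynomial.C (ex (x i)) * Polynomial.X).map (constantCoeff (R := ℂ)) =
      1 + Polynomial.X := by
    intro i
    rw [Polynomial.map_add, Polynomial.map_one, Polynomial.map_mul, Polynomial.map_C,
      Polynomial.map_X, constantCoeff_ex, map_one, one_mul]
  rw [Finset.prod_congr rfl fun i _ => h1 i, Finset.prod_const, Finset.card_univ,
    Fintype.card_fin]

end SolAux

open SolAux

/-- (v): the solutions of the functional equation are the products. -/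
theorem sol_of_fe (c M : ℕ) (r : ℕ → ℂ⟦X⟧)
    (h0 : ∀ j, j ≤ c → constantCoeff (r j) = (c.choose j : ℂ))
    (hz : X ^ M ∣ r 0 - 1) (hc : ∀ j, c < j → r j = 0)
    (ha : ∀ j, j ≤ c → X ^ M ∣ ∑ p ∈ Finset.HasAntidiagonal.antidiagonal (2 * j), (-1) ^ p.2 * (r p.1 * r p.2) -
      (-1) ^ j * rescale (2 : ℂ) (r j)) :
    ∃ x : Fin c → ℂ, ∀ j, X ^ M ∣
      r j - ∑ A ∈ Finset.powersetCard j Finset.univ, ex (∑ i ∈ A, x i) := by
  classical
  set R : Polynomial ℂ⟦X⟧ :=
    ∑ j ∈ Finset.range (c + 1), Polynomial.C (r j) * Polynomial.X ^ j with hRdef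
  have hRc : ∀ j, R.coeff j = r j := by
    intro j
    rw [hRdef, Polynomial.finsetSum_coeff]
    simp only [Polynomial.coeff_C_mul, Polynomial.coeff_X_pow, mul_ite, mul_one, mul_zero]
    rw [Finset.sum_ite_eq]
    split_ifs with h
    · rfl
    · rw [hc j (by simpa using h)]
  have hco : ∀ n, (X : ℂ⟦X⟧) ^ M ∣ (R * ng R -
      Polynomial.expand ℂ⟦X⟧ 2 (ng (R.map (rescale (2 : ℂ))))).coeff n := by
    intro n
    rw [Polynomial.coeff_sub, Polynomial.coeff_expand two_pos]
    rcases Nat.even_or_odd' n with ⟨j, rfl | rfl⟩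
    · rw [if_pos (dvd_mul_right 2 j), Nat.mul_div_cancel_left j two_pos, coeff_ng,
        Polynomial.coeff_map, hRc, Polynomial.coeff_mul]
      have h1 : ∑ p ∈ Finset.HasAntidiagonal.antidiagonal (2 * j), R.coeff p.1 * (ng R).coeff p.2 =
          ∑ p ∈ Finset.HasAntidiagonal.antidiagonal (2 * j), (-1) ^ p.2 * (r p.1 * r p.2) := by
        apply Finset.sum_congr rfl
        intro p _
        rw [coeff_ng, hRc, hRc]
        ring
      rw [h1]
      rcases Nat.lt_or_ge c j with h | h
      · have h2 : ∑ p ∈ Finset.HasAntidiagonal.antidiagonal (2 * j), (-1) ^ p.2 * (r p.1 * r p.2) = 0 := by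
          apply Finset.sum_eq_zero
          intro p hp
          have hp1 := Finset.HasAntidiagonal.mem_antidiagonal.mp hp
          rcases Nat.lt_or_ge c p.1 with h3 | h3
          · rw [hc _ h3]; ring
          · rw [hc p.2 (by omega)]; ring
        rw [h2, hc j h, map_zero, mul_zero, sub_zero]
        exact dvd_zero _
      · exact ha j h
    · rw [if_neg (by omega), sub_zero]
      have h1 : ng (R * ng R) = R * ng R := by
        rw [ng_mul, ng_ng, mul_comm]
      have h2 := congrArg (fun P => Polynomial.coeff P (2 * j + 1)) h1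
      simp only [coeff_ng] at h2
      have h3 : ((-1 : ℂ⟦X⟧)) ^ (2 * j + 1) = -1 := by
        rw [pow_add, pow_mul]
        simp
      rw [h3] at h2
      have h4 : (2 : ℂ⟦X⟧) * (R * ng R).coeff (2 * j + 1) = 0 := by
        linear_combination -h2
      have h5 : (R * ng R).coeff (2 * j + 1) = 0 := by
        have h2' : (2 : ℂ⟦X⟧) ≠ 0 := by
          intro h6
          have h7 := congrArg (constantCoeff (R := ℂ)) h6
          rw [map_zero, ← one_add_one_eq_two, map_add, map_one] at h7
          norm_num at h7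
        rcases mul_eq_zero.mp h4 with h6 | h6
        · exact absurd h6 h2'
        · exact h6
      rw [h5]
      exact dvd_zero _
  have hFE := fe_of_dvd M R hco
  obtain ⟨y, hy⟩ := exists_psum c fun k => (k.factorial : ℂ) * coeff k (r 1)
  set x : Fin c → ℂ := fun i => - y i with hx
  have hFE' : FE M (sol x) := by
    apply fe_of_dvd
    intro n
    rw [sol_ng, sub_self, Polynomial.coeff_zero]
    exact dvd_zero _
  have h0R : cf 0 R = (1 + Polynomial.X) ^ c := by
    ext j
    rw [coeff_cf, hRc, coeff_zero_eq_constantCoeff_apply, add_comm,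
      Polynomial.coeff_X_add_one_pow]
    rcases Nat.lt_or_ge c j with h | h
    · rw [hc j h, map_zero, Nat.choose_eq_zero_of_lt h, Nat.cast_zero]
    · exact h0 j h
  have hz' : ∀ k, k < M → coeff k (R.coeff 0) = coeff k ((sol x).coeff 0) := by
    intro k hk
    have h1 := (X_pow_dvd_iff.mp hz) k hk
    rw [map_sub, sub_eq_zero] at h1
    rw [hRc, h1, coeff_sol, Finset.powersetCard_zero, Finset.sum_singleton, Finset.sum_empty,
      ex_zero]
  have h1' : ∀ k, 1 ≤ k → k ≤ c → k < M → coeff k (R.coeff 1) = coeff k ((sol x).coeff 1) := by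
    intro k hk hkc _
    rw [hRc, coeff_sol, Finset.powersetCard_one, Finset.sum_map, map_sum]
    simp only [Function.Embedding.coeFn_mk, Finset.sum_singleton]
    rw [Finset.sum_congr rfl fun i _ => coeff_ex (x i) k, ← Finset.sum_div, hx]
    simp only [neg_neg]
    rw [hy k hk hkc, mul_comm, mul_div_assoc, div_self, mul_one]
    exact_mod_cast k.factorial_ne_zero
  have hfin := uniq c M R (sol x) hFE hFE' h0R (cf_zero_sol x) hz' h1'
  refine ⟨x, fun j => ?_⟩
  rw [X_pow_dvd_iff]
  intro k hk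
  have h2 := congrArg (fun P => Polynomial.coeff P j) (hfin k hk)
  simp only [coeff_cf] at h2
  rw [map_sub, sub_eq_zero, ← hRc, h2, coeff_sol]

/-- (v) and (vi): the `r_j` are determined. -/
theorem r_eq (c M : ℕ) (hM : 3 * c + 1 ≤ M) (d : Fin c → ℕ) (hd : ∀ i, 1 ≤ d i) (r : ℕ → ℂ⟦X⟧)
    (h0 : ∀ j, j ≤ c → constantCoeff (r j) = (c.choose j : ℂ))
    (hz : X ^ M ∣ r 0 - 1) (hc : ∀ j, c < j → r j = 0)
    (ha : ∀ j, j ≤ c → X ^ M ∣ ∑ p ∈ Finset.HasAntidiagonal.antidiagonal (2 * j), (-1) ^ p.2 * (r p.1 * r p.2) -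
      (-1) ^ j * rescale (2 : ℂ) (r j))
    (hk : X ^ M ∣ ∑ j ∈ Finset.range (c + 1), (-1) ^ j * r j - ∏ i, (1 - ex (d i))) (j : ℕ) :
    X ^ M ∣ r j - ∑ A ∈ Finset.powersetCard j Finset.univ, ex (∑ i ∈ A, (d i : ℂ)) := by
  obtain ⟨x, hx⟩ := sol_of_fe c M r h0 hz hc ha
  have h1 : ∑ j ∈ Finset.range (c + 1), (-1) ^ j * (sol x).coeff j = ∏ i, (1 - ex (x i)) := by
    have h2 : (sol x).eval (-1) = ∏ i, (1 - ex (x i)) := by
      rw [sol, Polynomial.eval_prod]
      apply Finset.prod_congr rfl
      intro i _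
      simp only [Polynomial.eval_add, Polynomial.eval_one, Polynomial.eval_mul,
        Polynomial.eval_C, Polynomial.eval_X]
      ring
    rw [← h2, Polynomial.eval_eq_sum_range' (n := c + 1)]
    · apply Finset.sum_congr rfl
      intro i _
      rw [mul_comm]
    · rw [Nat.lt_succ_iff, Polynomial.natDegree_le_iff_coeff_eq_zero]
      intro n hn
      rw [coeff_sol, Finset.powersetCard_eq_empty.mpr (by simpa using hn), Finset.sum_empty]
  have h2 : (X : ℂ⟦X⟧) ^ M ∣ ∏ i, (1 - ex (x i)) - ∏ i, (1 - ex (d i)) := by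
    rw [← h1]
    have h3 : ∑ j ∈ Finset.range (c + 1), (-1) ^ j * (sol x).coeff j - ∏ i, (1 - ex (d i)) =
        (∑ j ∈ Finset.range (c + 1), (-1) ^ j * r j - ∏ i, (1 - ex (d i))) -
          ∑ j ∈ Finset.range (c + 1), (-1) ^ j * (r j - (sol x).coeff j) := by
      simp only [mul_sub, Finset.sum_sub_distrib]
      ring
    rw [h3]
    refine dvd_sub hk (Finset.dvd_sum fun j _ => dvd_mul_of_dvd_right ?_ _)
    rw [coeff_sol]
    exact hx j
  obtain ⟨σ, hσ⟩ := eq_of_prod c M hM d hd x h2
  have h3 : sol x = sol fun i => ((d i : ℕ) : ℂ) := by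
    have h5 := Equiv.prod_comp σ
      fun i => (1 + Polynomial.C (ex ((d i : ℕ) : ℂ)) * Polynomial.X : Polynomial ℂ⟦X⟧)
    rw [sol, sol, ← h5]
    apply Finset.prod_congr rfl
    intro i _
    rw [hσ i]
  have h4 := hx j
  rw [← coeff_sol, h3, coeff_sol] at h4
  exact h4

end Pool.Agent.Lib.MP_776403_ag.SD2
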